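import Pool.Agent.U80.QM.One

/-!
# Rational solutions of the quantum multiplication functional equation (Nathanson's question)

`f_{mn}(q) = f_m(q) f_n(q^m)`.  We show that the answer to the question whether every sequence of
rational functions with support `S(P)` satisfying the functional equation lies in `K(Γ(P))` is
**no** for every set `P` of primes with at least two elements and **yes** for `|P| ≤ 1`.

For `|P| ≥ 2` the obstruction is made explicit: for every non-zero rational function `g`, the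
sequence `g(q^n)/g(q)` is a rational solution, and if it is a quotient of two polynomial solutions
then all non-zero zeros and poles of `g` lie on the unit circle.
In particular `(q^n - c)/(q - c)` is a counterexample for every complex `c` with `|c| ≠ 0, 1`.
-/

open Polynomial U80.QM

namespace Pool.Agent.Results.MP_bcdf42_nt.RationalSolutions

theorem result (P : Set ℕ) (hP : ∀ p ∈ P, p.Prime) :
    ((∀ f : ℕ → RatFunc ℂ, IsRatSol P f → InK P f) ↔ P.Subsingleton) ∧
    (¬ P.Subsingleton →
      (∀ g : RatFunc ℂ, g ≠ 0 →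
        IsRatSol P (cob P g) ∧
        (InK P (cob P g) → ∀ c : ℂ, c ≠ 0 → (g.num.IsRoot c ∨ g.denom.IsRoot c) → ‖c‖ = 1)) ∧
      (∀ c : ℂ, c ≠ 0 → ‖c‖ ≠ 1 → ∀ f : ℕ → RatFunc ℂ,
        (∀ n ∈ S P, f n = (RatFunc.X ^ n - RatFunc.C c) / (RatFunc.X - RatFunc.C c)) →
        (∀ n, n ∉ S P → f n = 0) → IsRatSol P f ∧ ¬ InK P f)) := by
  have key : ¬ P.Subsingleton → ∀ c : ℂ, c ≠ 0 → ‖c‖ ≠ 1 → ∀ f : ℕ → RatFunc ℂ,
        (∀ n ∈ S P, f n = (RatFunc.X ^ n - RatFunc.C c) / (RatFunc.X - RatFunc.C c)) →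
        (∀ n, n ∉ S P → f n = 0) → IsRatSol P f ∧ ¬ InK P f := by
    intro h2 c hc hc1 f hf1 hf2
    set g : RatFunc ℂ := algebraMap ℂ[X] (RatFunc ℂ) (X - C c) with hg
    have hg0 : g ≠ 0 := alg_ne (X_sub_C_ne_zero c)
    have hfg : f = cob P g := by
      funext n
      unfold cob
      split_ifs with h
      · rw [hf1 n h, quot, hg, RatFunc.num_algebraMap, RatFunc.denom_algebraMap]
        simp [RatFunc.algebraMap_X, RatFunc.algebraMap_C]
      · exact hf2 n h
    rw [hfg]
    refine ⟨cob_sol hP hg0, fun hK => hc1 (cob_K hP h2 hg0 hK hc (Or.inl ?_))⟩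
    rw [hg, RatFunc.num_algebraMap]
    simp
  refine ⟨⟨fun h => ?_, fun h f hf => inK_of_subsingleton hP h hf⟩, fun h2 => ⟨fun g hg => ?_, key h2⟩⟩
  · by_contra h2
    classical
    have h3 := key h2 2 two_ne_zero (by norm_num)
      (fun n => if n ∈ S P then (RatFunc.X ^ n - RatFunc.C 2) / (RatFunc.X - RatFunc.C 2) else 0)
      (fun n hn => if_pos hn) (fun n hn => if_neg hn)
    exact h3.2 (h _ h3.1)
  · exact ⟨cob_sol hP hg, fun hK c hc hr => cob_K hP h2 hg hK hc hr⟩

end Pool.Agent.Results.MP_bcdf42_nt.RationalSolutions
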